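import Pool.Agent.H369.SM.Stm

/-!
# SM3: Riemann-Roch gives functions with prescribed coefficients
-/

set_option autoImplicit false

namespace Pool.Agent.H282.SM

open Pool.Agent.H369.SM

section

variable {F 𝕂 P : Type} [Field F] [Field 𝕂] [Algebra F 𝕂]

/-- the leading coefficients at the places `x i` -/
noncomputable def phi (C : Crv F 𝕂 P) (D : P →₀ ℤ) {r : ℕ} (k : ℕ) (x : Fin r → P) :
    C.L D →ₗ[F] (Fin r → Fin (k + 1) → F) where
  toFun f := fun i l => (C.E (x i) (f : 𝕂)).coeff (((l : ℕ) : ℤ) - D (x i))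
  map_add' f g := by
    funext i l
    change (C.E (x i) ((f : 𝕂) + g)).coeff _ = _
    rw [map_add, HahnSeries.coeff_add]
    rfl
  map_smul' a f := by
    funext i l
    change (C.E (x i) (a • (f : 𝕂))).coeff _ = _
    rw [C.E_smul, HahnSeries.coeff_smul]
    rfl

theorem sum_sub_single (D : P →₀ ℤ) (r : ℕ) (x : Fin r → P) (a : ℤ) :
    ((D - ∑ i, Finsupp.single (x i) a).sum fun _ k => k) = (D.sum fun _ k => k) - r * a := by
  classical
  have h1 : ∀ E : P →₀ ℤ, (E.sum fun _ k => k) = Finsupp.degree E := by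
    intro E
    rfl
  rw [h1, h1, map_sub, map_sum]
  have h2 : ∑ i : Fin r, Finsupp.degree (Finsupp.single (x i) a) = r * a := by
    simp
  rw [h2]

theorem apply_mem (D : P →₀ ℤ) {r : ℕ} {x : Fin r → P} (hx : Function.Injective x) (a : ℤ)
    (i : Fin r) : (D - ∑ j, Finsupp.single (x j) a) (x i) = D (x i) - a := by
  classical
  rw [Finsupp.sub_apply, Finsupp.finsetSum_apply]
  congr 1
  rw [Finset.sum_eq_single i]
  · rw [Finsupp.single_eq_same]
  · intro j _ hj
    rw [Finsupp.single_apply, if_neg (fun h => hj (hx h))]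
  · intro h
    exact absurd (Finset.mem_univ i) h

theorem apply_notMem (D : P →₀ ℤ) {r : ℕ} {x : Fin r → P} (a : ℤ) {y : P}
    (hy : ∀ i, x i ≠ y) : (D - ∑ j, Finsupp.single (x j) a) y = D y := by
  classical
  rw [Finsupp.sub_apply, Finsupp.finsetSum_apply]
  rw [Finset.sum_eq_zero, sub_zero]
  intro j _
  rw [Finsupp.single_apply, if_neg (hy j)]

theorem ker_map (C : Crv F 𝕂 P) (D : P →₀ ℤ) {r : ℕ} (k : ℕ) {x : Fin r → P}
    (hx : Function.Injective x) :
    (LinearMap.ker (phi C D k x)).map (C.L D).subtype =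
      C.L (⇑(D - ∑ j, Finsupp.single (x j) ((k : ℤ) + 1))) := by
  ext f
  rw [Submodule.mem_map]
  constructor
  · rintro ⟨g, hg, rfl⟩
    rw [LinearMap.mem_ker] at hg
    rw [Crv.mem_L]
    intro y l hl
    by_cases hy : ∃ i, x i = y
    · obtain ⟨i, rfl⟩ := hy
      rw [apply_mem D hx] at hl
      by_cases hl' : l < -(D (x i))
      · exact g.2 (x i) l hl'
      · have h1 : ((l + D (x i)).toNat : ℤ) = l + D (x i) := Int.toNat_of_nonneg (by omega)
        have h2 : (l + D (x i)).toNat < k + 1 := by omega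
        have h3 := congrFun (congrFun hg i) ⟨(l + D (x i)).toNat, h2⟩
        change (C.E (x i) (g : 𝕂)).coeff (((l + D (x i)).toNat : ℤ) - D (x i)) = 0 at h3
        rw [h1, add_sub_cancel_right] at h3
        exact h3
    · rw [not_exists] at hy
      rw [apply_notMem D _ hy] at hl
      exact g.2 y l hl
  · intro hf
    rw [Crv.mem_L] at hf
    have hf' : f ∈ C.L D := by
      rw [Crv.mem_L]
      intro y l hl
      apply hf
      by_cases hy : ∃ i, x i = y
      · obtain ⟨i, rfl⟩ := hy
        rw [apply_mem D hx]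
        omega
      · rw [not_exists] at hy
        rw [apply_notMem D _ hy]
        exact hl
    refine ⟨⟨f, hf'⟩, ?_, rfl⟩
    rw [LinearMap.mem_ker]
    funext i l
    change (C.E (x i) f).coeff (((l : ℕ) : ℤ) - D (x i)) = 0
    apply hf
    rw [apply_mem D hx]
    have := l.2
    omega

end

theorem sur : S_sur := by
  intro F 𝕂 P _ _ _ C h hRR r k x hx D hD c
  rcases Nat.eq_zero_or_pos r with rfl | hr
  · exact ⟨0, Submodule.zero_mem _, fun i => i.elim0⟩
  have hr' : (1 : ℤ) ≤ r := by exact_mod_cast hr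
  have hk' : (0 : ℤ) ≤ k := Int.natCast_nonneg k
  have hrk : (1 : ℤ) ≤ r * (k + 1) := by nlinarith
  have hR1 := hRR D (by linarith)
  have hR2 := hRR (D - ∑ j, Finsupp.single (x j) ((k : ℤ) + 1)) (by
    rw [sum_sub_single]; exact hD)
  rw [sum_sub_single] at hR2
  have hfin : Module.Finite F (C.L D) := by
    apply Module.finite_of_finrank_pos
    have : (0 : ℤ) < Module.finrank F (C.L D) := by
      rw [hR1]
      have : (0 : ℤ) ≤ h := Int.natCast_nonneg h
      linarith
    exact_mod_cast this
  have hker : (Module.finrank F (LinearMap.ker (phi C D k x)) : ℤ) =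
      (D.sum fun _ k => k) - r * (k + 1) + 1 - h := by
    rw [← hR2, ← ker_map C D k hx]
    have e := Submodule.equivMapOfInjective (C.L D).subtype (C.L D).injective_subtype
      (LinearMap.ker (phi C D k x))
    rw [e.finrank_eq]
  have hrn := LinearMap.finrank_range_add_finrank_ker (phi C D k x)
  have hrange : Module.finrank F (LinearMap.range (phi C D k x)) =
      Module.finrank F (Fin r → Fin (k + 1) → F) := by
    have h1 : Module.finrank F (Fin r → Fin (k + 1) → F) = r * (k + 1) := by
      rw [Module.finrank_pi_fintype]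
      simp
    rw [h1]
    have h2 : (Module.finrank F (LinearMap.range (phi C D k x)) : ℤ) +
        Module.finrank F (LinearMap.ker (phi C D k x)) = Module.finrank F (C.L D) := by
      exact_mod_cast hrn
    rw [hker, hR1] at h2
    have h3 : (Module.finrank F (LinearMap.range (phi C D k x)) : ℤ) = r * (k + 1) := by linarith
    exact_mod_cast h3
  have htop := Submodule.eq_top_of_finrank_eq hrange
  have hc : c ∈ LinearMap.range (phi C D k x) := by rw [htop]; trivial
  obtain ⟨f, hf⟩ := hc
  refine ⟨f, f.2, ?_⟩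
  intro i l
  exact congrFun (congrFun hf i) l

end Pool.Agent.H282.SM
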